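import Pool.Agent.W477.GM.Stms

/-!
# Project GM: basic facts about the forcing relation (`P_FC`)
-/

set_option maxHeartbeats 1000000
set_option autoImplicit false

namespace Pool.Agent.W477.GM.W917FC

open Pool.Agent.W477.GM

section

variable {P : Type 1} [PartialOrder P] [OrderTop P] {D : Nm P → Prop}

theorem mono (E : EqF P) : ∀ φ v (p q : P), q ≤ p → Fc D φ v p → Fc D φ v q := by
  intro φ
  induction φ with
  | eq i j => exact fun v p q h H => E.mono _ _ _ _ h H
  | mem i j => exact fun v p q h H => E.mmono _ _ _ _ h H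
  | fls => exact fun v p q h H => H
  | imp a b _ _ => exact fun v p q h H r hr => H r (hr.trans h)
  | all i a ih => exact fun v p q h H x hx => ih _ p q h (H x hx)

theorem dense (E : EqF P) : ∀ φ v (p : P),
    (∀ q, q ≤ p → ∃ r, r ≤ q ∧ Fc D φ v r) → Fc D φ v p := by
  intro φ
  induction φ with
  | eq i j => exact fun v p H => E.dense _ _ _ H
  | mem i j => exact fun v p H => E.mdense _ _ _ H
  | fls =>
    intro v p H
    obtain ⟨r, _, h⟩ := H p le_rfl
    exact h
  | imp a b _ ihb =>
    intro v p H q hq ha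
    refine ihb v q fun s hs => ?_
    obtain ⟨r, hr, h⟩ := H s (hs.trans hq)
    exact ⟨r, hr, h r le_rfl (mono E a v q r (hr.trans hs) ha)⟩
  | all i a ih =>
    intro v p H x hx
    refine ih _ p fun q hq => ?_
    obtain ⟨r, hr, h⟩ := H q hq
    exact ⟨r, hr, h x hx⟩

theorem congr (E : EqF P) : ∀ φ v w (p : P), (∀ i, feq (v i) (w i) p) →
    Fc D φ v p → Fc D φ w p := by
  intro φ
  induction φ with
  | eq i j =>
    exact fun v w p h H => E.trans _ _ _ _ (E.symm _ _ _ (h i)) (E.trans _ _ _ _ H (h j))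
  | mem i j => exact fun v w p h H => E.mcongr _ _ _ _ _ (h i) (h j) H
  | fls => exact fun v w p h H => H
  | imp a b iha ihb =>
    intro v w p h H q hq ha
    have h1 : ∀ i, feq (v i) (w i) q := fun i => E.mono _ _ _ _ hq (h i)
    exact ihb v w q h1 (H q hq (iha w v q (fun i => E.symm _ _ _ (h1 i)) ha))
  | all i a ih =>
    intro v w p h H x hx
    refine ih (Function.update v i x) (Function.update w i x) p (fun j => ?_) (H x hx)
    by_cases hj : j = i
    · subst hj
      simp only [Function.update_self]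
      exact E.refl _ _
    · simp only [Function.update_of_ne hj]
      exact h j

theorem bd : ∀ (φ : Fm) v w (p : P), (∀ i, i < φ.bd → v i = w i) →
    (Fc D φ v p ↔ Fc D φ w p) := by
  intro φ
  induction φ with
  | eq i j =>
    intro v w p h
    simp only [Fm.bd] at h
    simp only [Fc, h i (by omega), h j (by omega)]
  | mem i j =>
    intro v w p h
    simp only [Fm.bd] at h
    simp only [Fc, h i (by omega), h j (by omega)]
  | fls => exact fun v w p h => Iff.rfl
  | imp a b iha ihb =>
    intro v w p h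
    simp only [Fm.bd] at h
    refine forall_congr' fun q => imp_congr_right fun _ => ?_
    exact imp_congr (iha v w q fun i hi => h i (by omega)) (ihb v w q fun i hi => h i (by omega))
  | all i a ih =>
    intro v w p h
    simp only [Fm.bd] at h
    refine forall_congr' fun x => imp_congr_right fun _ => ?_
    refine ih _ _ p fun j hj => ?_
    by_cases hji : j = i
    · subst hji
      simp only [Function.update_self]
    · simp only [Function.update_of_ne hji]
      exact h j (by omega)

theorem equiv (A : ActF P) (g : P ≃o P) (h1 : ∀ x, D x → D (act g x))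
    (h2 : ∀ x, D x → D (act g⁻¹ x)) : ∀ φ v (p : P),
    (Fc D φ (fun i => act g (v i)) (g p) ↔ Fc D φ v p) := by
  intro φ
  induction φ with
  | eq i j => exact fun v p => A.feq g _ _ p
  | mem i j => exact fun v p => A.fmem g _ _ p
  | fls => exact fun v p => Iff.rfl
  | imp a b iha ihb =>
    intro v p
    constructor
    · intro H q hq ha
      exact (ihb v q).1 (H (g q) ((OrderIso.le_iff_le g).2 hq) ((iha v q).2 ha))
    · intro H q hq ha
      have e : g (g.symm q) = q := g.apply_symm_apply q
      rw [← e] at ha ⊢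
      refine (ihb v _).2 (H _ ?_ ((iha v _).1 ha))
      rw [← OrderIso.le_iff_le g, e]
      exact hq
  | all i a ih =>
    intro v p
    have key : ∀ x, (fun j => act g (Function.update v i x j)) =
        Function.update (fun j => act g (v j)) i (act g x) := by
      intro x
      funext j
      by_cases hj : j = i
      · subst hj
        simp only [Function.update_self]
      · simp only [Function.update_of_ne hj]
    constructor
    · intro H x hx
      refine (ih _ p).1 ?_
      rw [key]
      exact H _ (h1 x hx)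
    · intro H x hx
      have e : act g (act g⁻¹ x) = x := by
        rw [← A.mul, mul_inv_cancel, A.one]
      have h3 := (ih _ p).2 (H _ (h2 x hx))
      rw [key, e] at h3
      exact h3

theorem and_iff (E : EqF P) (a b : Fm) (v) (p : P) :
    Fc D (.and a b) v p ↔ Fc D a v p ∧ Fc D b v p := by
  have h0 : Fc D (.and a b) v p ↔ ∀ q, q ≤ p → ¬ ∀ r, r ≤ q → Fc D a v r →
      ∀ s, s ≤ r → ¬ Fc D b v s := Iff.rfl
  rw [h0]
  constructor
  · intro H
    have h1 : ∀ q, q ≤ p → ∃ s, s ≤ q ∧ Fc D a v s ∧ Fc D b v s := by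
      intro q hq
      by_contra hc
      refine H q hq fun r hr ha s hs hb => hc ⟨s, hs.trans hr, mono E a v r s hs ha, hb⟩
    constructor
    · refine dense E a v p fun q hq => ?_
      obtain ⟨s, hs, h, _⟩ := h1 q hq
      exact ⟨s, hs, h⟩
    · refine dense E b v p fun q hq => ?_
      obtain ⟨s, hs, _, h⟩ := h1 q hq
      exact ⟨s, hs, h⟩
  · rintro ⟨ha, hb⟩ q hq H
    exact H q le_rfl (mono E a v p q hq ha) q le_rfl (mono E b v p q hq hb)

theorem or_iff (E : EqF P) (a b : Fm) (v) (p : P) :
    Fc D (.or a b) v p ↔ ∀ q, q ≤ p → ∃ r, r ≤ q ∧ (Fc D a v r ∨ Fc D b v r) := by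
  have h0 : Fc D (.or a b) v p ↔ ∀ q, q ≤ p → (∀ r, r ≤ q → ¬ Fc D a v r) → Fc D b v q :=
    Iff.rfl
  rw [h0]
  constructor
  · intro H q hq
    by_cases hc : ∃ r, r ≤ q ∧ Fc D a v r
    · obtain ⟨r, hr, h⟩ := hc
      exact ⟨r, hr, Or.inl h⟩
    · exact ⟨q, le_rfl, Or.inr (H q hq fun r hr h => hc ⟨r, hr, h⟩)⟩
  · intro H q hq hn
    refine dense E b v q fun s hs => ?_
    obtain ⟨r, hr, h | h⟩ := H s (hs.trans hq)
    · exact absurd h (hn r (hr.trans hs))
    · exact ⟨r, hr, h⟩

theorem iff_iff (E : EqF P) (a b : Fm) (v) (p : P) :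
    Fc D (.iff a b) v p ↔ ∀ q, q ≤ p → (Fc D a v q ↔ Fc D b v q) := by
  have h0 : Fc D (.iff a b) v p ↔ Fc D (.imp a b) v p ∧ Fc D (.imp b a) v p :=
    and_iff E (.imp a b) (.imp b a) v p
  rw [h0]
  exact ⟨fun H q hq => ⟨H.1 q hq, H.2 q hq⟩,
    fun H => ⟨fun q hq => (H q hq).1, fun q hq => (H q hq).2⟩⟩

theorem ex_iff (i : ℕ) (a : Fm) (v) (p : P) : Fc D (.ex i a) v p ↔
    ∀ q, q ≤ p → ∃ r, r ≤ q ∧ ∃ x, D x ∧ Fc D a (Function.update v i x) r := by
  have h0 : Fc D (.ex i a) v p ↔ ∀ q, q ≤ p → ¬ ∀ x, D x → ∀ r, r ≤ q →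
      ¬ Fc D a (Function.update v i x) r := Iff.rfl
  rw [h0]
  constructor
  · intro H q hq
    by_contra hc
    exact H q hq fun x hx r hr h => hc ⟨r, hr, x, hx, h⟩
  · intro H q hq hn
    obtain ⟨r, hr, x, hx, h⟩ := H q hq
    exact hn x hx r hr h

end

/-- GM-FC. -/
theorem fc_holds (h : P_EQ) (h2 : P_ACT) : P_FC := by
  intro P _ _ D
  have E : EqF P := h P
  have A : ActF P := h2 P
  exact
    { mono := mono E
      dense := dense E
      congr := congr E
      bd := bd
      equiv := fun g h1 h2 => equiv A g h1 h2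
      neg := fun a v p => Iff.rfl
      and := and_iff E
      or := or_iff E
      iff := iff_iff E
      ex := ex_iff }

end Pool.Agent.W477.GM.W917FC
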